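import Pool.Agent.Helper20.RL.St1

/-!
# Project RL, module LUF
-/

set_option autoImplicit false

open MeasureTheory Set Filter Topology
open scoped ENNReal RealInnerProductSpace

namespace Pool.Agent.Helper82.RL

open Pool.Agent.Helper68.LM (Pl BB Bd Av HL ft fm DQ)
open Pool.Agent.Helper20.RG Pool.Agent.Helper20.RL

/-- points of the same cell are in the same larger cells -/
theorem RQ_eq_LUF (hLGR : StLGR) {s : ℝ} {a b a' b' : ℤ} {y z : Pl} (ha : a ≤ a') (hb : b ≤ b')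
    (hz : z ∈ RQ s a b y) : RQ s a' b' z = RQ s a' b' y :=
  hLGR.2.1 s a' b' y z (hLGR.2.2.1 s a b a' b' y ha hb hz)

theorem Rich_iff_LUF (hLGR : StLGR) {F : Set Pl} {s θ : ℝ} {a b a' b' : ℤ} {y z : Pl} (ha : a ≤ a')
    (hb : b ≤ b') (hz : z ∈ RQ s a b y) : Rich F s a' b' θ z ↔ Rich F s a' b' θ y := by
  unfold Rich
  rw [RQ_eq_LUF hLGR ha hb hz]

theorem UU_iff_LUF (hLGR : StLGR) {F : Set Pl} {s : ℝ} {m u : ℕ} {η : ℝ} {τ : ℕ} {k k' : ℤ}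
    (hmono : Monotone (lad u)) (hk : k ≤ k') {y z : Pl} (hz : z ∈ RQ s (k + lad u τ) (k - (m : ℤ)) y) :
    z ∈ UU F s m u η τ k' ↔ y ∈ UU F s m u η τ k' := by
  have h1 : lad u τ ≤ lad u (τ + 1) := hmono (Nat.le_succ τ)
  unfold UU
  simp only [mem_ofPred_eq]
  rw [Rich_iff_LUF hLGR (by omega) (by omega) hz, Rich_iff_LUF hLGR (by omega) (by omega) hz]

theorem Rich_mono_LUF {F : Set Pl} {s θ θ' : ℝ} {a b : ℤ} {y : Pl} (h : θ' ≤ θ) (hr : Rich F s a b θ y) :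
    Rich F s a b θ' y := by
  refine le_trans (ENNReal.ofReal_le_ofReal ?_) hr
  exact mul_le_mul_of_nonneg_right h (by positivity)

theorem hLUF (hLGR : StLGR) (_hLFM : StLFM) (hLLM : StLLM) : StLUF := by
  classical
  intro F s m u η τ K hu hη hτ
  obtain ⟨-, hmono, -, -, -, -, hthr⟩ := hLLM u hu
  have hth : η / 2 ≤ thr u η τ := ((hthr η hη).2 τ hτ).1
  have hcell : ∀ k : ℤ, ∀ y ∈ UU F s m u η τ k,
      RQ s (k + lad u τ) (k - (m : ℤ)) y ⊆ UU F s m u η τ k := by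
    intro k y hy z hz
    exact (UU_iff_LUF hLGR hmono le_rfl hz).2 hy
  refine ⟨fun k => ⟨⟨fun z hz z' hz' => ⟨hcell k z hz hz', rfl, rfl⟩,
    fun z hz => Rich_mono_LUF hth hz.1⟩, hcell k⟩, ?_⟩
  set V : Set Pl := ⋃ k ∈ Ico (0 : ℤ) K, UU F s m u η τ k with hV
  have hex : ∀ z ∈ V, ∃ k : ℤ, (k ∈ Ico (0 : ℤ) K ∧ z ∈ UU F s m u η τ k) ∧
      ∀ k', k' ∈ Ico (0 : ℤ) K ∧ z ∈ UU F s m u η τ k' → k' ≤ k := by
    intro z hz
    rw [hV] at hz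
    simp only [mem_iUnion] at hz
    obtain ⟨k, hk, hzk⟩ := hz
    exact Int.exists_greatest_of_bdd ⟨K, fun k' h => h.1.2.le⟩ ⟨k, hk, hzk⟩
  choose! κ hκ1 hκ2 using hex
  have hmem : ∀ z k, k ∈ Ico (0 : ℤ) K → z ∈ UU F s m u η τ k → z ∈ V := by
    intro z k hk hz
    rw [hV]
    simp only [mem_iUnion]
    exact ⟨k, hk, hz⟩
  refine ⟨fun z => κ z + lad u τ, fun z => κ z - (m : ℤ), ⟨?_, ?_⟩, ?_⟩
  · intro z hz z' hz'
    have h1 := hκ1 z hz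
    have h2 : z' ∈ UU F s m u η τ (κ z) := hcell _ z h1.2 hz'
    have h3 : z' ∈ V := hmem z' _ h1.1 h2
    have h4 : κ z ≤ κ z' := hκ2 z' h3 _ ⟨h1.1, h2⟩
    have h5 : κ z' ≤ κ z := by
      have h6 := hκ1 z' h3
      exact hκ2 z hz _ ⟨h6.1, (UU_iff_LUF hLGR hmono h4 hz').1 h6.2⟩
    have h7 : κ z' = κ z := le_antisymm h5 h4
    exact ⟨h3, by simp only [h7], by simp only [h7]⟩
  · intro z hz
    exact Rich_mono_LUF hth (hκ1 z hz).2.1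
  · intro z hz
    exact ⟨κ z, (hκ1 z hz).1, rfl, rfl⟩

end Pool.Agent.Helper82.RL
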