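import Pool.Agent.Helper20.RL.St1

/-!
# Project RL, module LLF
-/

set_option autoImplicit false

open MeasureTheory Set Filter Topology
open scoped ENNReal RealInnerProductSpace

namespace Pool.Agent.Helper82.RL

open Pool.Agent.Helper68.LM (Pl BB Bd Av HL ft fm DQ)
open Pool.Agent.Helper20.RG Pool.Agent.Helper20.RL

theorem one_sub_sinc_LLF (hSINC : StSINC) (a b : ℝ) :
    |1 - Real.sinc a * Real.sinc b| ≤ 2 ∧ |1 - Real.sinc a * Real.sinc b| ≤ |a| + |b| := by
  have ha := hSINC.1 a
  have hb := hSINC.1 b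
  constructor
  · have h1 : |Real.sinc a * Real.sinc b| ≤ 1 := by
      rw [abs_mul]
      exact mul_le_one₀ ha.1 (abs_nonneg _) hb.1
    have h2 := abs_le.1 h1
    rw [abs_le]
    constructor <;> linarith [h2.1, h2.2]
  · have h1 : 1 - Real.sinc a * Real.sinc b = (1 - Real.sinc a) + Real.sinc a * (1 - Real.sinc b) := by ring
    rw [h1]
    refine (abs_add_le _ _).trans (add_le_add ha.2.2 ?_)
    rw [abs_mul]
    calc |Real.sinc a| * |1 - Real.sinc b| ≤ 1 * |1 - Real.sinc b| :=
          mul_le_mul_of_nonneg_right ha.1 (abs_nonneg _)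
      _ ≤ |b| := by rw [one_mul]; exact hb.2.2

theorem hLLF (hPT : StPT) (hSINC : StSINC) : StLLF := by
  classical
  refine ⟨170, by norm_num, ?_⟩
  intro u s ν a i ξ hs hν hia hcnt
  obtain ⟨hpt1, -, hn, hin, -⟩ := hPT
  obtain ⟨hn0, hn1, hn2, -⟩ := hn ξ
  have hE : ∀ t : ℝ, ⟪E t, ξ⟫ = ξ 0 + t * ξ 1 := by
    intro t
    rw [hin, E, (hpt1 1 t).1, (hpt1 1 t).2, one_mul]
  set r : ℝ := ‖ξ‖ with hr
  have hr0 : 0 ≤ r := norm_nonneg _
  set N : ℝ := (2 : ℝ) ^ u with hN
  have hN0 : 0 < N := by positivity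
  set T : ℕ → ℝ := fun j => Real.sinc (8 * Real.pi * (2 : ℝ) ^ a * ⟪E (s j), ξ⟫) *
      (1 - Real.sinc (2 * Real.pi * ξ 0) * Real.sinc (2 * Real.pi * ξ 1)) with hT
  have hb := one_sub_sinc_LLF hSINC (2 * Real.pi * ξ 0) (2 * Real.pi * ξ 1)
  have hpi : 0 < Real.pi := Real.pi_pos
  have hpi4 : Real.pi ≤ 3.15 := Real.pi_lt_d2.le
  have hcardN : ((Finset.range (2 ^ u)).card : ℝ) = N := by
    rw [Finset.card_range, hN]
    push_cast
    rfl
  by_cases hsmall : N * r ^ 2 ≤ 1
  · -- small frequencies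
    have h1 : ∀ j ∈ Finset.range (2 ^ u), T j ^ 2 ≤ (4 * Real.pi * r) ^ 2 := by
      intro j _
      have h2 : |T j| ≤ 4 * Real.pi * r := by
        simp only [hT]
        rw [abs_mul]
        have h3 : |1 - Real.sinc (2 * Real.pi * ξ 0) * Real.sinc (2 * Real.pi * ξ 1)| ≤ 4 * Real.pi * r := by
          refine hb.2.trans ?_
          rw [abs_mul (2 * Real.pi) (ξ 0), abs_mul (2 * Real.pi) (ξ 1),
            abs_of_pos (by positivity : (0 : ℝ) < 2 * Real.pi)]
          nlinarith
        calc _ ≤ 1 * |1 - Real.sinc (2 * Real.pi * ξ 0) * Real.sinc (2 * Real.pi * ξ 1)| :=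
              mul_le_mul_of_nonneg_right (hSINC.1 _).1 (abs_nonneg _)
          _ ≤ _ := by rw [one_mul]; exact h3
      rw [← sq_abs]
      exact pow_le_pow_left₀ (abs_nonneg _) h2 2
    have h2 := Finset.sum_le_sum h1
    rw [Finset.sum_const, nsmul_eq_mul, hcardN] at h2
    refine h2.trans ?_
    have h3 : N * (4 * Real.pi * r) ^ 2 = 16 * Real.pi ^ 2 * (N * r ^ 2) := by ring
    rw [h3]
    have h4 : Real.pi ^ 2 ≤ 10 := by nlinarith
    have h5 : 0 ≤ N * r ^ 2 := by positivity
    nlinarith [mul_nonneg (by positivity : (0 : ℝ) ≤ 16 * Real.pi ^ 2) h5]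
  · push Not at hsmall
    have hrpos : 0 < r := by
      rcases hr0.lt_or_eq with h | h
      · exact h
      · rw [← h] at hsmall
        norm_num at hsmall
    set ε : ℝ := (2 : ℝ) ^ (-(i : ℤ)) with hε
    have hε0 : 0 < ε := by positivity
    have hε1 : ε ≤ 1 := by
      rw [hε, zpow_neg, zpow_natCast]
      exact inv_le_one_of_one_le₀ (one_le_pow₀ (by norm_num))
    set Cl : Finset ℕ := (Finset.range (2 ^ u)).filter (fun j => |⟪E (s j), ξ⟫| ≤ ε * r / 4) with hCl
    have hcard : (Cl.card : ℝ) ≤ ν := by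
      by_cases hx1 : r / 4 ≤ |ξ 1|
      · have hx1' : 0 < |ξ 1| := by linarith
        have hx0 : ξ 1 ≠ 0 := abs_pos.1 hx1'
        refine le_trans ?_ (hcnt (-(ξ 0 / ξ 1)))
        have hfin : {j : ℕ | j < 2 ^ u ∧ |s j - (-(ξ 0 / ξ 1))| ≤ (2 : ℝ) ^ (-(i : ℤ))}.Finite :=
          (Set.finite_lt_nat (2 ^ u)).subset fun j hj => hj.1
        rw [← Set.ncard_coe_finset]
        refine Nat.cast_le.2 (Set.ncard_le_ncard ?_ hfin)
        intro j hj
        rw [hCl, Finset.mem_coe, Finset.mem_filter, Finset.mem_range] at hj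
        refine ⟨hj.1, ?_⟩
        have h1 := hj.2
        rw [hE] at h1
        have h2 : s j - (-(ξ 0 / ξ 1)) = (ξ 0 + s j * ξ 1) / ξ 1 := by
          field_simp
          ring
        rw [h2, abs_div, div_le_iff₀ hx1']
        refine h1.trans ?_
        calc ε * r / 4 = ε * (r / 4) := by ring
          _ ≤ ε * |ξ 1| := mul_le_mul_of_nonneg_left hx1 hε0.le
      · push Not at hx1
        have h0 : Cl = ∅ := by
          rw [hCl, Finset.filter_eq_empty_iff]
          intro j hj
          rw [Finset.mem_range] at hj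
          rw [hE]
          push Not
          have h1 : |s j * ξ 1| ≤ |ξ 1| := by
            rw [abs_mul]
            calc |s j| * |ξ 1| ≤ 1 * |ξ 1| := mul_le_mul_of_nonneg_right (hs j hj) (abs_nonneg _)
              _ = |ξ 1| := one_mul _
          have h2 : |ξ 0| ≤ |ξ 0 + s j * ξ 1| + |s j * ξ 1| := by
            have := abs_sub (ξ 0 + s j * ξ 1) (s j * ξ 1)
            rwa [add_sub_cancel_right] at this
          have h3 : ε * r ≤ 1 * r := mul_le_mul_of_nonneg_right hε1 hr0
          linarith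
        rw [h0]
        simp
        linarith
    have key : ∀ j ∈ Finset.range (2 ^ u), T j ^ 2 ≤
        (if |⟪E (s j), ξ⟫| ≤ ε * r / 4 then 4 else 0) + 1 / N := by
      intro j _
      split_ifs with hc
      · have h2 : |T j| ≤ 2 := by
          simp only [hT]
          rw [abs_mul]
          calc _ ≤ 1 * |1 - Real.sinc (2 * Real.pi * ξ 0) * Real.sinc (2 * Real.pi * ξ 1)| :=
                mul_le_mul_of_nonneg_right (hSINC.1 _).1 (abs_nonneg _)
            _ ≤ _ := by rw [one_mul]; exact hb.1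
        have h3 : T j ^ 2 ≤ 2 ^ 2 := by
          rw [← sq_abs]
          exact pow_le_pow_left₀ (abs_nonneg _) h2 2
        have h4 : 0 < 1 / N := by positivity
        linarith
      · push Not at hc
        rw [zero_add]
        have h1 := (hSINC.1 (8 * Real.pi * (2 : ℝ) ^ a * ⟪E (s j), ξ⟫)).2.1
        have hpa : (2 : ℝ) ^ a * ε = (2 : ℝ) ^ (a - i) := by
          have e1 : a = (a - i) + i := by omega
          rw [hε, zpow_neg, zpow_natCast]
          conv_lhs => rw [e1, pow_add]
          field_simp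
        have hpa2 : N ≤ (2 : ℝ) ^ a * ε := by
          rw [hpa, hN]
          exact pow_le_pow_right₀ (by norm_num) (by omega)
        set X : ℝ := 8 * Real.pi * (2 : ℝ) ^ a * ⟪E (s j), ξ⟫ with hX
        have hXl : 2 * (N * r) ≤ |X| := by
          rw [hX, abs_mul, abs_of_pos (by positivity : (0 : ℝ) < 8 * Real.pi * (2 : ℝ) ^ a)]
          calc 2 * (N * r) ≤ 2 * Real.pi * (((2 : ℝ) ^ a * ε) * r) := by
                have h5 : N * r ≤ ((2 : ℝ) ^ a * ε) * r := mul_le_mul_of_nonneg_right hpa2 hr0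
                have h6 : (1 : ℝ) ≤ Real.pi := by linarith [Real.pi_gt_three]
                have h7 : 0 ≤ ((2 : ℝ) ^ a * ε) * r := by positivity
                nlinarith
            _ = 8 * Real.pi * (2 : ℝ) ^ a * (ε * r / 4) := by ring
            _ ≤ _ := mul_le_mul_of_nonneg_left hc.le (by positivity)
        have hNr : 0 < N * r := by positivity
        have h3 : |T j| * (N * r) ≤ 1 := by
          simp only [hT]
          rw [abs_mul]
          have h4 : |Real.sinc X| * (2 * (N * r)) ≤ 1 := by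
            calc |Real.sinc X| * (2 * (N * r)) ≤ |Real.sinc X| * |X| :=
                  mul_le_mul_of_nonneg_left hXl (abs_nonneg _)
              _ = |X * Real.sinc X| := by rw [← abs_mul, mul_comm]
              _ ≤ 1 := h1
          calc |Real.sinc X| * |1 - Real.sinc (2 * Real.pi * ξ 0) * Real.sinc (2 * Real.pi * ξ 1)| * (N * r)
              ≤ |Real.sinc X| * 2 * (N * r) := by
                refine mul_le_mul_of_nonneg_right ?_ hNr.le
                exact mul_le_mul_of_nonneg_left hb.1 (abs_nonneg _)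
            _ ≤ 1 := by linarith
        have h4 : T j ^ 2 * (N * r) ^ 2 ≤ 1 := by
          rw [← sq_abs, ← mul_pow]
          exact pow_le_one₀ (by positivity) h3
        rw [le_div_iff₀ hN0]
        have h5 : T j ^ 2 * N * (N * r ^ 2) ≤ 1 := by
          have : T j ^ 2 * N * (N * r ^ 2) = T j ^ 2 * (N * r) ^ 2 := by ring
          rw [this]; exact h4
        have h6 : 0 ≤ T j ^ 2 * N := by positivity
        nlinarith
    have hsum := Finset.sum_le_sum key
    rw [Finset.sum_add_distrib, Finset.sum_const, nsmul_eq_mul, hcardN, ← Finset.sum_filter,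
      Finset.sum_const, nsmul_eq_mul, mul_one_div_cancel hN0.ne'] at hsum
    have h9 : (Cl.card : ℝ) * 4 ≤ ν * 4 := mul_le_mul_of_nonneg_right hcard (by norm_num)
    refine hsum.trans ?_
    linarith

end Pool.Agent.Helper82.RL
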